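import Pool.Agent.Helper18.SU.Goals3

set_option autoImplicit false

namespace Pool.Agent.Helper6.SU

open Pool.Agent.Helper18.SU

theorem mem_nb {V : Type} (A : V → V → Prop) (d : Bool) (X : Finset V) (x y : V) :
    y ∈ nb A d X x ↔ y ∈ X ∧ Arc A d x y := by
  classical
  unfold nb
  rw [Finset.mem_filter]

theorem nb_sub {V : Type} (A : V → V → Prop) (d : Bool) (X : Finset V) (x : V) :
    nb A d X x ⊆ X := fun y hy => ((mem_nb A d X x y).1 hy).1

/-- Two disjoint subsets of `X`. -/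
theorem nb_two {V : Type} (A : V → V → Prop) (d : Bool) (X Q R : Finset V) (x : V) (hQ : Q ⊆ X)
    (hR : R ⊆ X) (hd : Disjoint Q R) :
    (nb A d Q x).card + (nb A d R x).card ≤ (nb A d X x).card := by
  classical
  rw [← Finset.card_union_of_disjoint
    (Finset.disjoint_of_subset_left (nb_sub A d Q x) (Finset.disjoint_of_subset_right
      (nb_sub A d R x) hd))]
  refine Finset.card_le_card fun y hy => ?_
  rcases Finset.mem_union.1 hy with h | h
  · rw [mem_nb] at h ⊢
    exact ⟨hQ h.1, h.2⟩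
  · rw [mem_nb] at h ⊢
    exact ⟨hR h.1, h.2⟩

theorem arith (g e l π w p1 p2 z n : ℕ) (h1 : π + w + 1 = n) (h2 : 2 * g ≤ n + e)
    (h3 : n ≤ 2 * g + 1) (h4 : g ≤ π + l) (h5 : π ≤ g) (h6 : 5 * e + 3 * l + 4 ≤ g)
    (h7 : w ^ 2 + 2 * (p1 * (w + 1 - l)) ≤ 2 * (w * g) + w)
    (h8 : p2 + 2 * w ≤ 2 * g + 2 * l) (h9 : π ≤ z + (p1 + p2)) :
    g ≤ 2 * z + 5 * e + 6 * l + 6 := by
  have hwl : l ≤ w + 1 := by omega
  have hpos : 0 < w + 1 - l := by omega
  have key : 4 * p1 + 2 * w ≤ 2 * (2 * g + 1) + 3 * l := by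
    obtain ⟨u, hu⟩ : ∃ u, u = w + 1 - l := ⟨_, rfl⟩
    rw [← hu] at h7 hpos
    have hw : w + 1 = u + l := by omega
    have hw2 : (w : ℤ) = u + l - 1 := by omega
    zify at h7 h1 h2 h3 h4 h5 h6 hpos ⊢
    have hgw : 0 ≤ 2 * (g : ℤ) - w + 1 := by omega
    have h10 : 2 * (2 * (g : ℤ) - w + 1) ≤ 3 * u := by omega
    have h11 : 2 * ((p1 : ℤ) * u) ≤ w * (2 * g + 1 - w) := by linarith [h7]
    have h12 : (w : ℤ) * (2 * g + 1 - w) = u * (2 * g - w + 1) + (l - 1) * (2 * g - w + 1) := by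
      rw [hw2]; ring
    have hl0 : (0 : ℤ) ≤ l := by omega
    have h13 : 2 * (((l : ℤ) - 1) * (2 * g - w + 1)) ≤ 3 * l * u := by
      nlinarith [mul_le_mul_of_nonneg_left h10 hl0]
    have h14 : (u : ℤ) * (4 * p1 + 2 * w) ≤ u * (2 * (2 * g + 1) + 3 * l) := by nlinarith
    exact le_of_mul_le_mul_left h14 hpos
  omega

theorem GZ3 (h1 : DEG_stmt) : GZ3_stmt := by
  classical
  intro V _ A hA X y hy g e l hg he hl hbig
  obtain ⟨D1, D2, D3, D4, D5, D6, D7, D8⟩ := h1 V A hA
  obtain ⟨P, hP⟩ : ∃ P, P = nb A true X y := ⟨_, rfl⟩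
  obtain ⟨Q, hQ⟩ : ∃ Q, Q = nb A false X y := ⟨_, rfl⟩
  rw [← hP] at hl ⊢
  rw [← hQ]
  have hPX : P ⊆ X := by rw [hP]; exact nb_sub A true X y
  have hQX : Q ⊆ X := by rw [hQ]; exact nb_sub A false X y
  have hPQ : Disjoint P Q := by rw [hP, hQ]; exact D7 X y
  have hnot : ∀ z ∈ P, z ∉ Q := fun z hz hz' => (Finset.disjoint_left.1 hPQ) hz hz'
  have e1 := D2 X y hy
  rw [← hP, ← hQ] at e1
  have e2 : X.card ≤ 2 * g + 1 := D5 true X g hg
  have e3 : P.card ≤ g := by rw [hP]; exact hg y hy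
  obtain ⟨P1, hP1⟩ : ∃ P1, P1 = P.filter (fun z => (nb A true Q z).card < l) := ⟨_, rfl⟩
  obtain ⟨P2, hP2⟩ : ∃ P2, P2 = P.filter (fun z => (nb A false Q z).card < l) := ⟨_, rfl⟩
  have hP1P : P1 ⊆ P := by rw [hP1]; exact Finset.filter_subset _ _
  have hP2P : P2 ⊆ P := by rw [hP2]; exact Finset.filter_subset _ _
  -- the first class
  have k1 : Q.card ^ 2 + 2 * (P1.card * (Q.card + 1 - l)) ≤ 2 * (Q.card * g) + Q.card := by
    have a1 : ∑ x ∈ Q, ((nb A true Q x).card + (nb A true P1 x).card) ≤ Q.card * g := by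
      rw [← smul_eq_mul]
      refine Finset.sum_le_card_nsmul Q _ g fun x hx => ?_
      refine (nb_two A true X Q P1 x hQX (hP1P.trans hPX) ?_).trans (hg x (hQX hx))
      exact (Finset.disjoint_of_subset_left hP1P hPQ).symm
    have a2 := D4 true Q
    have a3 : ∑ x ∈ Q, (nb A true P1 x).card = ∑ z ∈ P1, (nb A false Q z).card := D3 true Q P1
    have a4 : P1.card * (Q.card + 1 - l) ≤ ∑ z ∈ P1, (nb A false Q z).card := by
      rw [← smul_eq_mul]
      refine Finset.card_nsmul_le_sum P1 _ _ fun z hz => ?_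
      have hzP := hP1P hz
      rw [hP1, Finset.mem_filter] at hz
      have b1 := D1 Q z (hnot z hzP)
      have b2 := hz.2
      omega
    rw [Finset.sum_add_distrib, a3] at a1
    omega
  -- the second class
  have hw1 : 2 * Q.card ≤ 2 * g + 2 * l := by omega
  have k2 : P2.card + 2 * Q.card ≤ 2 * g + 2 * l := by
    rcases P2.eq_empty_or_nonempty with h | ⟨z0, hz0⟩
    · rw [h, Finset.card_empty]
      omega
    · have b0 : ∀ z ∈ P2, (nb A true P2 z).card + (Q.card + 1) ≤ g + l := by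
        intro z hz
        have hzP := hP2P hz
        have b1 := D1 Q z (hnot z hzP)
        have b2 : (nb A true Q z).card + (nb A true P2 z).card ≤ g :=
          (nb_two A true X Q P2 z hQX (hP2P.trans hPX)
            (Finset.disjoint_of_subset_left hP2P hPQ).symm).trans (hg z (hPX hzP))
        rw [hP2, Finset.mem_filter] at hz
        have b3 := hz.2
        omega
      have b1 := D5 true P2 (g + l - (Q.card + 1)) fun z hz => by
        have := b0 z hz
        omega
      have := b0 z0 hz0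
      omega
  refine ⟨P \ (P1 ∪ P2), Finset.sdiff_subset, ?_, ?_⟩
  · have c1 : P.card ≤ (P \ (P1 ∪ P2)).card + (P1.card + P2.card) := by
      have c2 : P.card ≤ (P \ (P1 ∪ P2)).card + (P1 ∪ P2).card := by
        rw [← Finset.card_sdiff_add_card_inter P (P1 ∪ P2)]
        exact Nat.add_le_add_left (Finset.card_le_card Finset.inter_subset_right) _
      have c3 := Finset.card_union_le P1 P2
      omega
    exact arith g e l P.card Q.card P1.card P2.card _ X.card e1 he e2 hl e3 hbig k1 k2 c1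
  · intro z hz
    rw [Finset.mem_sdiff, Finset.mem_union, not_or] at hz
    obtain ⟨hzP, hz1, hz2⟩ := hz
    rw [hP1, Finset.mem_filter] at hz1
    rw [hP2, Finset.mem_filter] at hz2
    constructor
    · by_contra h
      exact hz1 ⟨hzP, by omega⟩
    · by_contra h
      exact hz2 ⟨hzP, by omega⟩

end Pool.Agent.Helper6.SU
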