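import Pool.Agent.Helper18.SU.Goals3

set_option autoImplicit false

namespace Pool.Agent.Helper6.SU

open Pool.Agent.Helper18.SU

/-- A growing sequence of numbers has a slow step. -/
theorem slow_step (a : ℕ → ℕ) (g J : ℕ) (h0 : 1 ≤ a 0) (hJ : a J ≤ g ^ J) (hJ1 : 1 ≤ J) :
    ∃ j < J, a (j + 1) ≤ g * a j := by
  by_contra h
  push Not at h
  have key : ∀ j, j ≤ J → g ^ j ≤ a j ∧ (1 ≤ j → g ^ j < a j) := by
    intro j
    induction j with
    | zero => intro _; exact ⟨by simpa using h0, by omega⟩
    | succ j ih =>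
      intro hj
      have h1 := (ih (by omega)).1
      have h2 := h j (by omega)
      have h3 : g ^ (j + 1) ≤ g * a j := by
        rw [pow_succ, mul_comm]
        exact Nat.mul_le_mul_left g h1
      exact ⟨by omega, fun _ => by omega⟩
  have := (key J le_rfl).2 hJ1
  omega

theorem TBG : TBG_stmt := by
  classical
  intro V _ d δ g J μ Bm S hd0 hsym htri hg hJ hS hball hBm
  have key : ∀ k, k ≤ μ → ∃ Y ⊆ S, ∃ T ⊆ S, Disjoint Y T ∧ (∀ z ∈ Y, ∀ y ∈ T, δ < d z y) ∧
      k ≤ Y.card ∧ ((μ ≤ Y.card ∧ μ ≤ T.card) ∨ (Y.card < μ ∧ S.card ≤ T.card + g * Y.card)) := by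
    intro k
    induction k with
    | zero =>
      intro _
      refine ⟨∅, Finset.empty_subset _, S, Finset.Subset.refl _, Finset.disjoint_empty_left _,
        ?_, Nat.zero_le _, ?_⟩
      · intro z hz
        exact absurd hz (Finset.notMem_empty z)
      · rw [Finset.card_empty]
        rcases Nat.eq_zero_or_pos μ with h | h
        · left
          omega
        · right
          omega
    | succ k ih =>
      intro hk
      obtain ⟨Y, hYS, T, hTS, hdis, hdist, hkY, halt⟩ := ih (by omega)
      rcases halt with h1 | ⟨h1, h2⟩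
      · exact ⟨Y, hYS, T, hTS, hdis, hdist, by omega, Or.inl h1⟩
      have h3 : g * Y.card ≤ g * μ := Nat.mul_le_mul_left g h1.le
      have h4 : (g + 1) * μ = g * μ + μ := by ring
      have hT : 0 < T.card := by omega
      obtain ⟨x, hx⟩ := Finset.card_pos.1 hT
      obtain ⟨B, hB⟩ : ∃ B : ℕ → Finset V, B = fun j => T.filter (fun y => d x y ≤ j * δ) := ⟨_, rfl⟩
      have hBmem : ∀ j y, y ∈ B j ↔ y ∈ T ∧ d x y ≤ j * δ := by
        intro j y
        rw [hB, Finset.mem_filter]
      have hB0 : 1 ≤ (B 0).card := by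
        refine Finset.card_pos.2 ⟨x, (hBmem 0 x).2 ⟨hx, ?_⟩⟩
        rw [hd0]
        exact Nat.zero_le _
      have hBJ : (B J).card ≤ g ^ J := by
        refine le_trans ?_ hS
        refine Finset.card_le_card fun y hy => hTS ((hBmem J y).1 hy).1
      obtain ⟨j, hj, hslow⟩ := slow_step (fun j => (B j).card) g J hB0 hBJ hJ
      have hmono : B j ⊆ B (j + 1) := by
        intro y hy
        rw [hBmem] at hy ⊢
        refine ⟨hy.1, hy.2.trans (Nat.mul_le_mul_right δ (Nat.le_succ j))⟩
      have hQT : B (j + 1) ⊆ T := fun y hy => ((hBmem _ y).1 hy).1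
      have hPT : B j ⊆ T := fun y hy => ((hBmem _ y).1 hy).1
      have hQ : (B (j + 1)).card ≤ Bm := by
        refine le_trans (Finset.card_le_card ?_) (hball x (hTS hx))
        intro y hy
        rw [hBmem] at hy
        rw [Finset.mem_filter]
        exact ⟨hTS hy.1, hy.2.trans (Nat.mul_le_mul_right δ (by omega))⟩
      have hP1 : 1 ≤ (B j).card := by
        refine Finset.card_pos.2 ⟨x, (hBmem j x).2 ⟨hx, ?_⟩⟩
        rw [hd0]
        exact Nat.zero_le _
      have hYP : Disjoint Y (B j) := Finset.disjoint_of_subset_right hPT hdis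
      have hcY : (Y ∪ B j).card = Y.card + (B j).card := Finset.card_union_of_disjoint hYP
      have hcT : (T \ B (j + 1)).card + (B (j + 1)).card = T.card :=
        Finset.card_sdiff_add_card_eq_card hQT
      have e1 : g * (Y ∪ B j).card = g * Y.card + g * (B j).card := by rw [hcY]; ring
      refine ⟨Y ∪ B j, Finset.union_subset hYS (hPT.trans hTS), T \ B (j + 1),
        Finset.sdiff_subset.trans hTS, ?_, ?_, by omega, ?_⟩
      · rw [Finset.disjoint_union_left]
        refine ⟨Finset.disjoint_of_subset_right Finset.sdiff_subset hdis, ?_⟩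
        refine Finset.disjoint_of_subset_left hmono ?_
        exact Finset.disjoint_sdiff
      · intro z hz y hy
        rw [Finset.mem_sdiff] at hy
        rcases Finset.mem_union.1 hz with h | h
        · exact hdist z h y hy.1
        · have h5 := ((hBmem _ _).1 h).2
          have h6 : ¬ d x y ≤ (j + 1) * δ := fun h7 => hy.2 ((hBmem _ _).2 ⟨hy.1, h7⟩)
          have h7 := htri x z y
          have h8 : (j + 1) * δ = j * δ + δ := by ring
          omega
      · rcases lt_or_ge (Y ∪ B j).card μ with h5 | h5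
        · right
          exact ⟨h5, by omega⟩
        · left
          exact ⟨h5, by omega⟩
  obtain ⟨Y, hYS, T, hTS, hdis, hdist, hkY, halt⟩ := key μ le_rfl
  rcases halt with h1 | h1
  · exact ⟨Y, hYS, T, hTS, hdis, h1.1, h1.2, hdist⟩
  · omega

end Pool.Agent.Helper6.SU
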